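import Mathlib

set_option autoImplicit false

namespace Pool.Agent.Results.MP_dbbe21_pr.FullRank

open Matrix Finset

/-- marginal kernel: symmetric with all eigenvalues in `[0,1]`, i.e. `K` and `1 - K` are PSD -/
def IsKernel {N : ℕ} (K : Matrix (Fin N) (Fin N) ℝ) : Prop := K.PosSemidef ∧ (1 - K).PosSemidef

/-- the principal minor `det K_S` -/
noncomputable def minor {N : ℕ} (K : Matrix (Fin N) (Fin N) ℝ) (S : Finset (Fin N)) : ℝ :=
  (K.submatrix (Subtype.val : S → Fin N) (Subtype.val : S → Fin N)).det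

/-- `P T = Pr[X = T]` is the law of the DPP with kernel `K` -/
def IsLaw {N : ℕ} (K : Matrix (Fin N) (Fin N) ℝ) (P : Finset (Fin N) → ℝ) : Prop :=
  (∀ T, 0 ≤ P T) ∧ ∀ S, ∑ T ∈ univ.filter (fun T => S ⊆ T), P T = minor K S

/-- `K` maximises the likelihood of the training set `X` -/
def Optimal {N : ℕ} (X : List (Finset (Fin N))) (K : Matrix (Fin N) (Fin N) ℝ) : Prop :=
  IsKernel K ∧ ∃ P, IsLaw K P ∧
    ∀ K' P', IsKernel K' → IsLaw K' P' → (X.map P').prod ≤ (X.map P).prod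

lemma minor_eq {N k : ℕ} (K : Matrix (Fin N) (Fin N) ℝ) (S : Finset (Fin N)) (f : Fin k → S)
    (hf : Function.Bijective f) : minor K S = (K.submatrix (fun i => (f i).1) (fun i => (f i).1)).det := by
  rw [minor, ← det_submatrix_equiv_self (Equiv.ofBijective f hf)]
  rfl

lemma law_iff (K : Matrix (Fin 3) (Fin 3) ℝ) (P : Finset (Fin 3) → ℝ) : IsLaw K P ↔ (∀ T, 0 ≤ P T) ∧
    P ∅ + (P {0} + (P {1} + (P {2} + (P {0, 1} + (P {0, 2} + (P {1, 2} + P {0, 1, 2})))))) = 1 ∧
    P {0} + (P {0, 1} + (P {0, 2} + P {0, 1, 2})) = K 0 0 ∧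
    P {1} + (P {0, 1} + (P {1, 2} + P {0, 1, 2})) = K 1 1 ∧
    P {2} + (P {0, 2} + (P {1, 2} + P {0, 1, 2})) = K 2 2 ∧
    P {0, 1} + P {0, 1, 2} = K 0 0 * K 1 1 - K 0 1 * K 1 0 ∧
    P {0, 2} + P {0, 1, 2} = K 0 0 * K 2 2 - K 0 2 * K 2 0 ∧
    P {1, 2} + P {0, 1, 2} = K 1 1 * K 2 2 - K 1 2 * K 2 1 ∧
    P {0, 1, 2} = K.det := by
  have hu : ∀ p : Finset (Fin 3) → Prop, (∀ S, p S) ↔ p ∅ ∧ p {0} ∧ p {1} ∧ p {2} ∧ p {0, 1} ∧ p {0, 2} ∧
      p {1, 2} ∧ p {0, 1, 2} := by
    intro p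
    refine ⟨fun h => ⟨h _, h _, h _, h _, h _, h _, h _, h _⟩, fun h S => ?_⟩
    have : ∀ S : Finset (Fin 3), S = ∅ ∨ S = {0} ∨ S = {1} ∨ S = {2} ∨ S = {0, 1} ∨ S = {0, 2} ∨
      S = {1, 2} ∨ S = {0, 1, 2} := by decide
    rcases this S with rfl | rfl | rfl | rfl | rfl | rfl | rfl | rfl <;> tauto
  rw [IsLaw, hu fun S => ∑ T ∈ univ.filter (fun T => S ⊆ T), P T = minor K S,
    show univ.filter (fun T => (∅ : Finset (Fin 3)) ⊆ T) =
      {∅, {0}, {1}, {2}, {0, 1}, {0, 2}, {1, 2}, {0, 1, 2}} by decide,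
    show univ.filter (fun T => ({0} : Finset (Fin 3)) ⊆ T) = {{0}, {0, 1}, {0, 2}, {0, 1, 2}} by decide,
    show univ.filter (fun T => ({1} : Finset (Fin 3)) ⊆ T) = {{1}, {0, 1}, {1, 2}, {0, 1, 2}} by decide,
    show univ.filter (fun T => ({2} : Finset (Fin 3)) ⊆ T) = {{2}, {0, 2}, {1, 2}, {0, 1, 2}} by decide,
    show univ.filter (fun T => ({0, 1} : Finset (Fin 3)) ⊆ T) = {{0, 1}, {0, 1, 2}} by decide,
    show univ.filter (fun T => ({0, 2} : Finset (Fin 3)) ⊆ T) = {{0, 2}, {0, 1, 2}} by decide,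
    show univ.filter (fun T => ({1, 2} : Finset (Fin 3)) ⊆ T) = {{1, 2}, {0, 1, 2}} by decide,
    show univ.filter (fun T => ({0, 1, 2} : Finset (Fin 3)) ⊆ T) = {{0, 1, 2}} by decide,
    minor_eq K ∅ (k := 0) Fin.elim0 (by decide),
    minor_eq K {0} (k := 1) ![⟨0, by decide⟩] (by decide),
    minor_eq K {1} (k := 1) ![⟨1, by decide⟩] (by decide),
    minor_eq K {2} (k := 1) ![⟨2, by decide⟩] (by decide),
    minor_eq K {0, 1} (k := 2) ![⟨0, by decide⟩, ⟨1, by decide⟩] (by decide),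
    minor_eq K {0, 2} (k := 2) ![⟨0, by decide⟩, ⟨2, by decide⟩] (by decide),
    minor_eq K {1, 2} (k := 2) ![⟨1, by decide⟩, ⟨2, by decide⟩] (by decide),
    minor_eq K {0, 1, 2} (k := 3) (fun i => ⟨i, by revert i; decide⟩) (by decide)]
  repeat rw [sum_insert (by decide)]
  simp only [sum_singleton, det_fin_zero, det_fin_one, det_fin_two, submatrix_apply]
  rfl

lemma amgm {a b c : ℝ} (ha : 0 ≤ a) (hb : 0 ≤ b) (hc : 0 ≤ c) : a * b * c ≤ ((a + b + c) / 3) ^ 3 := by
  nlinarith [mul_nonneg ha (sq_nonneg (b - c)), mul_nonneg hb (sq_nonneg (a - c)),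
    mul_nonneg hc (sq_nonneg (a - b)), mul_nonneg (add_nonneg (add_nonneg ha hb) hc)
    (add_nonneg (add_nonneg (sq_nonneg (a - b)) (sq_nonneg (b - c))) (sq_nonneg (a - c)))]

lemma angle {p q r x y z : ℝ} (hp : 0 ≤ p) (hq : 0 ≤ q) (hr : 0 ≤ r) (h1 : x ^ 2 ≤ p * q) (h2 : y ^ 2 ≤ p * r)
    (h3 : z ^ 2 ≤ q * r) (h : p * q * r - r * x ^ 2 - q * y ^ 2 - p * z ^ 2 + 2 * x * y * z = 0) :
    (p * q - x ^ 2) * (p * r - y ^ 2) * (q * r - z ^ 2) ≤ 27 / 64 * (p * q * r) ^ 2 := by
  set m := p * q * r with hm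
  have hm0 : 0 ≤ m := by positivity
  rcases hm0.eq_or_lt with h0 | h0
  · have : (p * q - x ^ 2) * (p * r - y ^ 2) * (q * r - z ^ 2) ≤ (p * q) * (p * r) * (q * r) := by
      gcongr <;> linarith [sq_nonneg x, sq_nonneg y, sq_nonneg z]
    have e : (p * q) * (p * r) * (q * r) = m ^ 2 := by rw [hm]; ring
    rw [e, ← h0] at this
    rw [← h0]
    simpa using this
  · have a1 := amgm (a := r * x ^ 2) (b := q * y ^ 2) (c := p * z ^ 2) (by positivity) (by positivity)
      (by positivity)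
    have a2 := amgm (a := r * (p * q - x ^ 2)) (b := q * (p * r - y ^ 2)) (c := p * (q * r - z ^ 2))
      (mul_nonneg hr (by linarith)) (mul_nonneg hq (by linarith)) (mul_nonneg hp (by linarith))
    set s := r * x ^ 2 + q * y ^ 2 + p * z ^ 2 with hs
    have e1 : r * x ^ 2 * (q * y ^ 2) * (p * z ^ 2) = m * ((m - s) / 2) ^ 2 := by
      have : (m - s) / 2 = -(x * y * z) := by rw [hs]; linarith
      rw [this, hm]; ring
    have e2 : 3 / 4 * m ≤ s := by
      by_contra hc
      have hs0 : 0 ≤ s := by positivity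
      have : 0 < (3 * m - s) ^ 2 * (3 * m - 4 * s) := mul_pos (pow_pos (by linarith) 2) (by linarith)
      rw [e1] at a1
      nlinarith
    have e3 : (r * (p * q - x ^ 2) + q * (p * r - y ^ 2) + p * (q * r - z ^ 2)) / 3 = (3 * m - s) / 3 := by
      rw [hs, hm]; ring
    have e4 : r * (p * q - x ^ 2) * (q * (p * r - y ^ 2)) * (p * (q * r - z ^ 2)) =
        m * ((p * q - x ^ 2) * (p * r - y ^ 2) * (q * r - z ^ 2)) := by rw [hm]; ring
    have e5 : 0 ≤ (3 * m - s) / 3 := by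
      rw [← e3]
      have := mul_nonneg hr (sub_nonneg.2 h1)
      have := mul_nonneg hq (sub_nonneg.2 h2)
      have := mul_nonneg hp (sub_nonneg.2 h3)
      linarith
    rw [e3, e4] at a2
    have e6 : ((3 * m - s) / 3) ^ 3 ≤ (3 / 4 * m) ^ 3 := by gcongr; linarith
    refine le_of_mul_le_mul_left (a2.trans (e6.trans (le_of_eq ?_))) h0
    ring

/-- the training set -/
def X0 : List (Finset (Fin 3)) := [∅, ∅, ∅, {0, 1}, {0, 2}, {1, 2}]

lemma bound {K : Matrix (Fin 3) (Fin 3) ℝ} {P : Finset (Fin 3) → ℝ} (hK : IsKernel K) (hP : IsLaw K P)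
    (hd : K.det = 0) : (X0.map P).prod ≤ 1 / 48 ^ 3 := by
  obtain ⟨h0, h1, h2, h3, h4, h5, h6, h7, h8⟩ := (law_iff K P).1 hP
  have s1 : K 1 0 = K 0 1 := by simpa using hK.1.1.apply 0 1
  have s2 : K 2 0 = K 0 2 := by simpa using hK.1.1.apply 0 2
  have s3 : K 2 1 = K 1 2 := by simpa using hK.1.1.apply 1 2
  rw [← h8] at hd
  rw [det_fin_three, s1, s2, s3] at h8
  rw [s1] at h5
  rw [s2] at h6
  rw [s3] at h7
  have := h0 ∅; have := h0 {0}; have := h0 {1}; have := h0 {2}
  have := h0 {0, 1}; have := h0 {0, 2}; have := h0 {1, 2}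
  simp only [X0, List.map_cons, List.map_nil, List.prod_cons, List.prod_nil]
  generalize P ∅ = o at *
  generalize P {0} = p at *
  generalize P {1} = q at *
  generalize P {2} = r at *
  generalize P {0, 1} = u at *
  generalize P {0, 2} = v at *
  generalize P {1, 2} = w at *
  generalize P {0, 1, 2} = d at *
  generalize K 0 0 = a at *
  generalize K 1 1 = b at *
  generalize K 2 2 = c at *
  generalize K 0 1 = x at *
  generalize K 0 2 = y at *
  generalize K 1 2 = z at *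
  have eu : u = a * b - x * x - d := by linarith
  have ev : v = a * c - y * y - d := by linarith
  have ew : w = b * c - z * z - d := by linarith
  have ep : p = a - u - v - d := by linarith
  have eq : q = b - u - w - d := by linarith
  have er : r = c - v - w - d := by linarith
  have eo : o = 1 - p - q - r - u - v - w - d := by linarith
  have f1 : p * q - (x * (1 - c) + y * z) ^ 2 = u * o := by
    rw [eo, ep, eq, er, eu, ev, ew, h8]; ring
  have f2 : p * r - (y * (1 - b) + x * z) ^ 2 = v * o := by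
    rw [eo, ep, eq, er, eu, ev, ew, h8]; ring
  have f3 : q * r - (z * (1 - a) + x * y) ^ 2 = w * o := by
    rw [eo, ep, eq, er, eu, ev, ew, h8]; ring
  have f4 : p * q * r - r * (x * (1 - c) + y * z) ^ 2 - q * (y * (1 - b) + x * z) ^ 2 -
      p * (z * (1 - a) + x * y) ^ 2 + 2 * (x * (1 - c) + y * z) * (y * (1 - b) + x * z) *
      (z * (1 - a) + x * y) = d * o ^ 2 := by
    rw [eo, ep, eq, er, eu, ev, ew, h8]; ring
  have g := angle (p := p) (q := q) (r := r) (x := x * (1 - c) + y * z) (y := y * (1 - b) + x * z)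
    (z := z * (1 - a) + x * y) (by assumption) (by assumption) (by assumption)
    (sub_nonneg.1 (by rw [f1]; positivity)) (sub_nonneg.1 (by rw [f2]; positivity))
    (sub_nonneg.1 (by rw [f3]; positivity)) (by rw [f4, hd, zero_mul])
  rw [f1, f2, f3] at g
  have a1 : p * q * r ≤ ((p + q + r) / 3) ^ 3 := amgm (by assumption) (by assumption) (by assumption)
  have a2 : u * o * (v * o) * (w * o) ≤ ((u * o + v * o + w * o) / 3) ^ 3 :=
    amgm (by positivity) (by positivity) (by positivity)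
  rw [show o * (o * (o * (u * (v * (w * 1))))) = u * o * (v * o) * (w * o) by ring]
  rcases le_total (p + q + r) (1 / 2) with h | h
  · have a3 : p * q * r ≤ ((1 / 2) / 3) ^ 3 := a1.trans (by gcongr)
    have a4 : (p * q * r) ^ 2 ≤ (((1 / 2) / 3) ^ 3) ^ 2 := by gcongr
    linarith
  · have a3 : (u * o + v * o + w * o) / 3 ≤ 1 / 48 := by
      have b1 : 0 ≤ u + v + w + o := by positivity
      have b2 : (u + v + w + o) ^ 2 ≤ (1 / 2) ^ 2 := pow_le_pow_left₀ b1 (by linarith) 2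
      linear_combination (1 / 12) * b2 + (1 / 12) * sq_nonneg (u + v + w - o)
    refine a2.trans ((pow_le_pow_left₀ (by positivity) a3 3).trans (by norm_num))

lemma diag : IsKernel (diagonal fun _ : Fin 3 => (1 / 3 : ℝ)) ∧
    IsLaw (diagonal fun _ : Fin 3 => (1 / 3 : ℝ)) fun T => 2 ^ (3 - T.card) / 27 := by
  refine ⟨⟨PosSemidef.diagonal fun _ => by norm_num, ?_⟩, (law_iff _ _).2 ⟨fun T => by positivity, ?_⟩⟩
  · rw [← diagonal_one, diagonal_sub]
    exact PosSemidef.diagonal fun _ => by norm_num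
  · simp only [show ({0, 1} : Finset (Fin 3)).card = 2 by decide, show ({0, 2} : Finset (Fin 3)).card = 2 by decide,
      show ({1, 2} : Finset (Fin 3)).card = 2 by decide, show ({0, 1, 2} : Finset (Fin 3)).card = 3 by decide]
    simp
    norm_num

lemma closed_psd : IsClosed {K : Matrix (Fin 3) (Fin 3) ℝ | K.PosSemidef} := by
  simp only [posSemidef_iff_dotProduct_mulVec, Set.ofPred_and, Set.ofPred_forall, IsHermitian]
  exact (isClosed_eq (by fun_prop) continuous_id).inter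
    (isClosed_iInter fun x => isClosed_le continuous_const (by fun_prop))

lemma compact : IsCompact {z : Matrix (Fin 3) (Fin 3) ℝ × (Finset (Fin 3) → ℝ) |
    IsKernel z.1 ∧ IsLaw z.1 z.2} := by
  have hc : IsCompact ((Set.pi Set.univ fun _ : Fin 3 => Set.pi Set.univ fun _ : Fin 3 => Set.Icc (-1 : ℝ) 1) ×ˢ
      (Set.pi Set.univ fun _ : Finset (Fin 3) => Set.Icc (0 : ℝ) 1)) :=
    (isCompact_univ_pi fun _ => isCompact_univ_pi fun _ => isCompact_Icc).prod
      (isCompact_univ_pi fun _ => isCompact_Icc)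
  refine hc.of_isClosed_subset ?_ ?_
  · simp only [IsKernel, IsLaw, Set.ofPred_and, Set.ofPred_forall, minor]
    refine ((closed_psd.preimage continuous_fst).inter (closed_psd.preimage (f := fun z :
      Matrix (Fin 3) (Fin 3) ℝ × (Finset (Fin 3) → ℝ) => 1 - z.1) (by fun_prop))).inter
      ((isClosed_iInter fun T => isClosed_le continuous_const (by fun_prop)).inter
      (isClosed_iInter fun S => isClosed_eq (by fun_prop) (by fun_prop)))
  · rintro ⟨K, P⟩ ⟨⟨h1, h2⟩, h3, h4⟩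
    refine ⟨fun i _ j _ => ?_, fun T _ => ⟨h3 T, ?_⟩⟩
    · have a1 := h1.dotProduct_mulVec_nonneg (Pi.single i 1 + Pi.single j 1)
      have a2 := h1.dotProduct_mulVec_nonneg (Pi.single i 1 - Pi.single j 1)
      have a3 := h2.diag_nonneg (i := i)
      have a4 := h2.diag_nonneg (i := j)
      have a5 : K j i = K i j := by simpa using h1.1.apply i j
      simp [mulVec_add, mulVec_sub, a5] at a1 a2 a3 a4
      constructor <;> simp only <;> linarith
    · have := h4 ∅
      rw [minor_eq _ ∅ (k := 0) Fin.elim0 (by decide), det_fin_zero] at this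
      rw [← this]
      exact single_le_sum (f := P) (fun S _ => h3 S) (by simp)

theorem result : ∃ (k N : ℕ) (X : List (Finset (Fin N))), 1 ≤ k ∧ (∀ S ∈ X, S.card ≤ k) ∧
    (∃ K, Optimal X K) ∧ ∀ K, Optimal X K → k < K.rank := by
  refine ⟨2, 3, X0, by norm_num, by decide, ?_, ?_⟩
  · obtain ⟨⟨K, P⟩, ⟨h1, h2⟩, h3⟩ := compact.exists_isMaxOn ⟨(_, _), diag⟩
      (f := fun z => (X0.map z.2).prod) (by
        simp only [X0, List.map_cons, List.map_nil, List.prod_cons, List.prod_nil]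
        fun_prop)
    exact ⟨K, h1, P, h2, fun K' P' h4 h5 => h3 (show (K', P') ∈ _ from ⟨h4, h5⟩)⟩
  · rintro K ⟨h1, P, h2, h3⟩
    have hd : K.det ≠ 0 := by
      intro hd
      have := (h3 _ _ diag.1 diag.2).trans (bound h1 h2 hd)
      simp only [X0, List.map_cons, List.map_nil, List.prod_cons, List.prod_nil,
        show ({0, 1} : Finset (Fin 3)).card = 2 by decide, show ({0, 2} : Finset (Fin 3)).card = 2 by decide,
        show ({1, 2} : Finset (Fin 3)).card = 2 by decide, card_empty] at this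
      norm_num at this
    rw [rank_of_det_ne_zero hd]
    simp

end Pool.Agent.Results.MP_dbbe21_pr.FullRank
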